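import Mathlib

/-!
# Counting functions `ι → Fin q`

`pr P` is the proportion of the functions `f : ι → Fin q` which satisfy `P`.
-/

namespace Pool.Agent.Q108.Cop

open Finset

open scoped Classical in
/-- The proportion of the functions `f : ι → Fin q` with `P f`. -/
noncomputable def pr {ι : Type} [Fintype ι] {q : ℕ} (P : (ι → Fin q) → Prop) : ℝ :=
  ((univ.filter fun f : ι → Fin q => P f).card : ℝ) / (q : ℝ) ^ Fintype.card ι

variable {ι : Type} [Fintype ι] {q : ℕ}

theorem pr_eq [DecidableEq ι] (P : (ι → Fin q) → Prop) [DecidablePred P] :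
    pr P = ((univ.filter fun f : ι → Fin q => P f).card : ℝ) / (q : ℝ) ^ Fintype.card ι := by
  classical
  have h : ∀ (i₁ i₂ : Fintype (ι → Fin q)) (d₁ d₂ : DecidablePred P),
      (@Finset.filter _ P d₁ (@Finset.univ _ i₁)).card =
        (@Finset.filter _ P d₂ (@Finset.univ _ i₂)).card := by
    intro i₁ i₂ d₁ d₂
    rw [Subsingleton.elim i₁ i₂, Subsingleton.elim d₁ d₂]
  unfold pr
  rw [h]

theorem pr_mono {P Q : (ι → Fin q) → Prop} (h : ∀ f, P f → Q f) : pr P ≤ pr Q := by
  classical
  simp only [pr_eq]
  gcongr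
  intro hf
  exact h _ hf

theorem pr_congr {P Q : (ι → Fin q) → Prop} (h : ∀ f, P f ↔ Q f) : pr P = pr Q := by
  have : P = Q := by ext f; exact h f
  rw [this]

theorem pr_nonneg (P : (ι → Fin q) → Prop) : 0 ≤ pr P := by
  unfold pr; positivity

theorem pr_exists {α : Type} (s : Finset α) (P : α → (ι → Fin q) → Prop) :
    pr (fun f => ∃ a ∈ s, P a f) ≤ ∑ a ∈ s, pr (P a) := by
  classical
  simp only [pr_eq]
  rw [← Finset.sum_div]
  gcongr
  have : (univ.filter fun f : ι → Fin q => ∃ a ∈ s, P a f) ⊆
      s.biUnion fun a => univ.filter fun f : ι → Fin q => P a f := by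
    intro f hf
    simp only [mem_filter, mem_univ, true_and] at hf
    obtain ⟨a, ha, hP⟩ := hf
    simp only [mem_biUnion, mem_filter, mem_univ, true_and]
    exact ⟨a, ha, hP⟩
  calc ((univ.filter fun f : ι → Fin q => ∃ a ∈ s, P a f).card : ℝ)
      ≤ ((s.biUnion fun a => univ.filter fun f : ι → Fin q => P a f).card : ℝ) := by
        exact_mod_cast card_le_card this
    _ ≤ ((∑ a ∈ s, (univ.filter fun f : ι → Fin q => P a f).card : ℕ) : ℝ) := by
        exact_mod_cast card_biUnion_le
    _ = _ := by push_cast; rfl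

theorem pr_or (P Q : (ι → Fin q) → Prop) : pr (fun f => P f ∨ Q f) ≤ pr P + pr Q := by
  classical
  simp only [pr_eq]
  rw [← add_div]
  gcongr
  have : (univ.filter fun f : ι → Fin q => P f ∨ Q f) =
      (univ.filter fun f : ι → Fin q => P f) ∪ univ.filter fun f : ι → Fin q => Q f := by
    ext f; simp
  rw [this]
  exact_mod_cast card_union_le _ _

theorem card_fun [DecidableEq ι] : (univ : Finset (ι → Fin q)).card = q ^ Fintype.card ι := by
  rw [card_univ, Fintype.card_fun, Fintype.card_fin]

theorem pr_univ (hq : 0 < q) : pr (fun _ : ι → Fin q => True) = 1 := by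
  classical
  simp only [pr_eq]
  have : (univ.filter fun _ : ι → Fin q => True) = univ := by simp
  rw [this, card_fun]
  push_cast
  have : (0:ℝ) < (q:ℝ) ^ Fintype.card ι := by positivity
  exact div_self this.ne'

theorem exists_of_pr_lt (hq : 0 < q) {P : (ι → Fin q) → Prop} (h : pr P < 1) : ∃ f, ¬ P f := by
  by_contra hcon
  push Not at hcon
  have : pr P = 1 := by
    rw [← pr_univ (ι := ι) hq]
    exact pr_congr fun f => by simp [hcon f]
  linarith

theorem pr_zero [NeZero q] (F : Finset ι) :
    pr (fun f : ι → Fin q => ∀ e ∈ F, f e = 0) = (1 / (q:ℝ)) ^ F.card := by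
  classical
  have hq : 0 < q := Nat.pos_of_ne_zero (NeZero.ne q)
  simp only [pr_eq]
  have h1 : (univ.filter fun f : ι → Fin q => ∀ e ∈ F, f e = 0) =
      Fintype.piFinset fun e => if e ∈ F then {0} else univ := by
    ext f
    simp only [mem_filter, mem_univ, true_and, Fintype.mem_piFinset]
    constructor
    · intro h e
      by_cases he : e ∈ F
      · simp [he, h e he]
      · simp [he]
    · intro h e he
      have := h e
      simpa [he] using this
  rw [h1, Fintype.card_piFinset]
  have h2 : ∏ e : ι, (if e ∈ F then ({0} : Finset (Fin q)) else univ).card =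
      ∏ e : ι, (if e ∈ F then 1 else q) := by
    apply prod_congr rfl
    intro e _
    by_cases he : e ∈ F <;> simp [he]
  rw [h2]
  have h3 : (∏ e : ι, (if e ∈ F then 1 else q)) * q ^ F.card = q ^ Fintype.card ι := by
    have : q ^ F.card = ∏ e : ι, (if e ∈ F then q else 1) := by
      rw [prod_ite]; simp
    rw [this, ← prod_mul_distrib, ← card_univ, ← prod_const]
    apply prod_congr rfl
    intro e _
    by_cases he : e ∈ F <;> simp [he]
  have hq' : (0:ℝ) < q := by exact_mod_cast hq
  rw [one_div, inv_pow, div_eq_iff (by positivity)]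
  rw [eq_comm, inv_mul_eq_iff_eq_mul₀ (by positivity)]
  rw [mul_comm]
  exact_mod_cast h3.symm

/-- Events which depend on disjoint sets of coordinates are independent. -/
theorem pr_indep (hq : 0 < q) (E : Finset ι) {P Q : (ι → Fin q) → Prop}
    (hP : ∀ f g : ι → Fin q, (∀ e ∈ E, f e = g e) → P f → P g)
    (hQ : ∀ f g : ι → Fin q, (∀ e, e ∉ E → f e = g e) → Q f → Q g) :
    pr (fun f => P f ∧ Q f) = pr P * pr Q := by
  classical
  have key : (univ.filter fun f : ι → Fin q => P f ∧ Q f).card * q ^ Fintype.card ι =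
      (univ.filter fun f : ι → Fin q => P f).card * (univ.filter fun f : ι → Fin q => Q f).card := by
    rw [← card_fun (ι := ι), ← card_product, ← card_product]
    refine card_bij' (fun p _ => ((fun e => if e ∈ E then p.1 e else p.2 e : ι → Fin q),
      (fun e => if e ∈ E then p.2 e else p.1 e : ι → Fin q)))
      (fun p _ => ((fun e => if e ∈ E then p.1 e else p.2 e : ι → Fin q),
      (fun e => if e ∈ E then p.2 e else p.1 e : ι → Fin q))) ?_ ?_ ?_ ?_
    · rintro ⟨f, g⟩ h
      simp only [mem_product, mem_filter, mem_univ, true_and, and_true] at h ⊢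
      refine ⟨hP f _ ?_ h.1, hQ f _ ?_ h.2⟩
      · intro e he; simp [he]
      · intro e he; simp [he]
    · rintro ⟨f, g⟩ h
      simp only [mem_product, mem_filter, mem_univ, true_and, and_true] at h ⊢
      refine ⟨hP f _ ?_ h.1, hQ g _ ?_ h.2⟩
      · intro e he; simp [he]
      · intro e he; simp [he]
    · rintro ⟨f, g⟩ h
      simp only [Prod.mk.injEq]
      constructor <;> (ext e; by_cases he : e ∈ E <;> simp [he])
    · rintro ⟨f, g⟩ h
      simp only [Prod.mk.injEq]
      constructor <;> (ext e; by_cases he : e ∈ E <;> simp [he])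
  simp only [pr_eq]
  have hq' : (0:ℝ) < (q:ℝ) ^ Fintype.card ι := by positivity
  rw [div_mul_div_comm, div_eq_div_iff hq'.ne' (by positivity)]
  have key' : ((univ.filter fun f : ι → Fin q => P f ∧ Q f).card : ℝ) * (q:ℝ) ^ Fintype.card ι =
      (univ.filter fun f : ι → Fin q => P f).card * (univ.filter fun f : ι → Fin q => Q f).card := by
    exact_mod_cast key
  rw [← mul_assoc, key']

/-- Many events which depend on pairwise disjoint sets of coordinates. -/
theorem pr_forall_le (hq : 0 < q) {α : Type} (Y : Finset α) (E : α → Finset ι)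
    (hE : ∀ y ∈ Y, ∀ z ∈ Y, y ≠ z → Disjoint (E y) (E z))
    (P : α → (ι → Fin q) → Prop)
    (hP : ∀ y, ∀ f g : ι → Fin q, (∀ e ∈ E y, f e = g e) → P y f → P y g)
    (c : ℝ) (hc : 0 ≤ c) (hPc : ∀ y ∈ Y, pr (P y) ≤ c) :
    pr (fun f => ∀ y ∈ Y, P y f) ≤ c ^ Y.card := by
  classical
  induction Y using Finset.induction_on with
  | empty =>
    simp only [notMem_empty, false_imp_iff, implies_true, card_empty, pow_zero]
    exact (pr_univ hq).le
  | insert y Y hy ih =>
    have h1 : pr (fun f : ι → Fin q => ∀ z ∈ insert y Y, P z f) =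
        pr (P y) * pr (fun f : ι → Fin q => ∀ z ∈ Y, P z f) := by
      rw [← pr_indep hq (E y) (hP y)]
      · apply pr_congr
        intro f
        simp
      · intro f g hfg hf z hz
        refine hP z f g ?_ (hf z hz)
        intro e he
        apply hfg
        intro he'
        have hd := hE y (mem_insert_self _ _) z (mem_insert_of_mem hz) (by rintro rfl; exact hy hz)
        exact (Finset.disjoint_left.mp hd) he' he
    rw [h1, card_insert_of_notMem hy, pow_succ, mul_comm (c ^ Y.card)]
    have ih' := ih (fun a ha b hb hab => hE a (mem_insert_of_mem ha) b (mem_insert_of_mem hb) hab)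
      (fun a ha => hPc a (mem_insert_of_mem ha))
    exact mul_le_mul (hPc y (mem_insert_self _ _)) ih' (pr_nonneg _) hc

end Pool.Agent.Q108.Cop
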