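import Pool.Agent.Q108.Cop.Step
import Pool.Agent.Q108.Cop.Count

/-!
# Chains of copies are unlikely
-/

namespace Pool.Agent.Q108.Cop

open Finset

variable {V : Type} [Fintype V] [DecidableEq V] {q : ℕ} [NeZero q]

/-- `x` is a copy of the complement of the path with `k` vertices in the graph of the zeros
of `f`. -/
def IsCopy {k : ℕ} (f : Sym2 V → Fin q) (x : Fin k → V) : Prop :=
  Function.Injective x ∧ ∀ i j : Fin k, (i : ℕ) + 2 ≤ j → f s(x i, x j) = 0

/-- There is a chain of `T` steps which starts at `W`. -/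
def Chain (f : Sym2 V → Fin q) (S : Finset V) (k : ℕ) : ℕ → Finset V → Prop
  | 0, _ => True
  | T + 1, W => ∃ x : Fin k → V, ∃ ρ : Fin k, IsCopy f x ∧ x ρ ∉ W ∧ (∃ a, Far ρ a ∧ x a ∈ S) ∧
      (∀ s ∈ S, f s(x ρ, s) = 0) ∧ Chain f S k T (W ∪ univ.image x)

/-- The bound for one step. -/
noncomputable def del (m q ℓ w : ℕ) : ℝ :=
  ((2 * m + 2 : ℕ) : ℝ) * 2 ^ (2 * m + 2) * (ℓ : ℝ) ^ (2 * m + 3) * (w : ℝ) ^ (2 * m + 2) / q

theorem del_nonneg (m q ℓ w : ℕ) : 0 ≤ del m q ℓ w := by unfold del; positivity

theorem chain_bound {m ℓ w : ℕ} (hm : 2 ≤ m) (hℓ : 1 ≤ ℓ) (hw : 1 ≤ w)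
    (hV : Fintype.card V = q ^ m * ℓ) {S : Finset V} (hS : S.card = m) (T : ℕ) :
    ∀ (W : Finset V) (F : Finset (Sym2 V)), S ⊆ W → W.card + T * (2 * m + 2) ≤ w →
      (∀ e ∈ F, ∀ v ∈ e, v ∈ W) →
      pr (fun f : Sym2 V → Fin q => (∀ e ∈ F, f e = 0) ∧ Chain f S (2 * m + 2) T W) ≤
        del m q ℓ w ^ T * (1 / (q : ℝ)) ^ F.card := by
  classical
  have hq : 1 ≤ q := Nat.one_le_iff_ne_zero.mpr (NeZero.ne q)
  have hq' : (0 : ℝ) < q := by exact_mod_cast hq
  induction T with
  | zero =>
    intro W F _ _ _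
    rw [pow_zero, one_mul, ← pr_zero]
    exact pr_mono fun f hf => hf.1
  | succ T ih =>
    intro W F hSW hWc hF
    have h1 : ∀ f : Sym2 V → Fin q, ((∀ e ∈ F, f e = 0) ∧ Chain f S (2 * m + 2) (T + 1) W) →
        ∃ p ∈ steps S W (2 * m + 2), (∀ e ∈ F ∪ New S W p.1 p.2, f e = 0) ∧
          Chain f S (2 * m + 2) T (W ∪ univ.image p.1) := by
      rintro f ⟨hf1, x, ρ, hx, hρ, ha, hS', hch⟩
      refine ⟨(x, ρ), ?_, ?_, hch⟩
      · rw [steps, mem_filter]
        exact ⟨mem_univ _, hx.1, hρ, ha⟩
      · intro e he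
        rw [mem_union, New, mem_union] at he
        rcases he with he | he | he
        · exact hf1 e he
        · rw [mem_image] at he
          obtain ⟨s, hs, rfl⟩ := he
          exact hS' s hs
        · rw [mem_image] at he
          obtain ⟨p, hp, rfl⟩ := he
          rw [mem_filter] at hp
          exact hx.2 _ _ hp.2.1
    refine (pr_mono h1).trans ((pr_exists _ _).trans ?_)
    have h2 : ∀ p ∈ steps S W (2 * m + 2),
        pr (fun f : Sym2 V → Fin q => (∀ e ∈ F ∪ New S W p.1 p.2, f e = 0) ∧
          Chain f S (2 * m + 2) T (W ∪ univ.image p.1)) ≤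
        del m q ℓ w ^ T * (1 / (q : ℝ)) ^ F.card * (1 / (q : ℝ)) ^ (New S W p.1 p.2).card := by
      rintro ⟨x, ρ⟩ hp
      rw [steps, mem_filter] at hp
      obtain ⟨_, hx, hρ, ha⟩ := hp
      have hd : Disjoint F (New S W x ρ) := by
        rw [Finset.disjoint_left]
        intro e he he'
        rw [New, mem_union] at he'
        rcases he' with he' | he'
        · rw [mem_image] at he'
          obtain ⟨s, hs, rfl⟩ := he'
          exact hρ (hF _ he _ (Sym2.mem_mk_left _ _))
        · rw [mem_image] at he'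
          obtain ⟨p, hp, rfl⟩ := he'
          rw [mem_filter] at hp
          exact hp.2.2 ⟨hF _ he _ (Sym2.mem_mk_left _ _), hF _ he _ (Sym2.mem_mk_right _ _)⟩
      refine (ih (W ∪ univ.image x) (F ∪ New S W x ρ) (hSW.trans subset_union_left) ?_ ?_).trans ?_
      · have e1 : (univ.image x).card ≤ 2 * m + 2 := by
          refine card_image_le.trans ?_
          rw [card_univ, Fintype.card_fin]
        have e2 := card_union_le W (univ.image x)
        rw [add_mul, one_mul] at hWc
        omega
      · intro e he v hv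
        rw [mem_union] at he
        rcases he with he | he
        · exact mem_union_left _ (hF e he v hv)
        · rw [New, mem_union] at he
          rcases he with he | he
          · rw [mem_image] at he
            obtain ⟨s, hs, rfl⟩ := he
            rw [Sym2.mem_iff] at hv
            rcases hv with rfl | rfl
            · exact mem_union_right _ (mem_image_of_mem _ (mem_univ _))
            · exact mem_union_left _ (hSW hs)
          · rw [mem_image] at he
            obtain ⟨p, hp, rfl⟩ := he
            rw [Sym2.mem_iff] at hv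
            rcases hv with rfl | rfl
            · exact mem_union_right _ (mem_image_of_mem _ (mem_univ _))
            · exact mem_union_right _ (mem_image_of_mem _ (mem_univ _))
      · rw [card_union_of_disjoint hd, pow_add, mul_assoc]
    refine (sum_le_sum h2).trans ?_
    rw [← mul_sum]
    have h3 := step_sum (S := S) (W := W) hm hq hℓ hw hV hSW hS (by omega)
    calc _ ≤ del m q ℓ w ^ T * (1 / (q : ℝ)) ^ F.card * del m q ℓ w := by
          apply mul_le_mul_of_nonneg_left h3
          have := del_nonneg m q ℓ w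
          positivity
      _ = _ := by ring

end Pool.Agent.Q108.Cop
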