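import Pool.Agent.Q108.Cop.Chain

/-!
# Existence of a good function
-/

namespace Pool.Agent.Q108.Cop

open Finset

section general

variable {ι : Type} [Fintype ι] {q : ℕ}

theorem pr_add_not (P Q : (ι → Fin q) → Prop) :
    pr P = pr (fun f => P f ∧ Q f) + pr (fun f => P f ∧ ¬ Q f) := by
  classical
  simp only [pr_eq]
  rw [← add_div]
  congr 1
  rw [← Nat.cast_add, ← card_union_of_disjoint]
  · congr 2
    ext f
    simp only [mem_filter, mem_univ, true_and, mem_union]
    tauto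
  · rw [Finset.disjoint_left]
    intro f hf hf'
    simp only [mem_filter] at hf hf'
    exact hf'.2.2 hf.2.2

theorem pr_not (hq : 0 < q) (P : (ι → Fin q) → Prop) : pr (fun f => ¬ P f) = 1 - pr P := by
  have h := pr_add_not (fun _ : ι → Fin q => True) P
  rw [pr_univ hq] at h
  simp only [true_and] at h
  linarith

end general

variable {V : Type} [Fintype V] [DecidableEq V] {q : ℕ} [NeZero q]

omit [Fintype V] in
theorem card_star (S : Finset V) (y : V) : (S.image fun s => s(y, s)).card = S.card := by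
  apply card_image_of_injective
  intro i j hij
  exact Sym2.congr_right.mp hij

theorem pr_cand {m : ℕ} (S : Finset V) (hS : S.card = m) (r : V) (hr : r ∉ S) (y : V) :
    pr (fun f : Sym2 V → Fin q => ¬ ((∀ s ∈ S, f s(y, s) = 0) ∧ f s(y, r) ≠ 0)) =
      1 - ((1 / (q : ℝ)) ^ m - (1 / (q : ℝ)) ^ (m + 1)) := by
  have hq : 0 < q := Nat.pos_of_ne_zero (NeZero.ne q)
  rw [pr_not hq]
  congr 1
  have h1 := pr_add_not (fun f : Sym2 V → Fin q => ∀ s ∈ S, f s(y, s) = 0)
    (fun f => f s(y, r) = 0)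
  have h2 : pr (fun f : Sym2 V → Fin q => ∀ s ∈ S, f s(y, s) = 0) = (1 / (q : ℝ)) ^ m := by
    rw [← hS, ← card_star S y, ← pr_zero]
    apply pr_congr
    intro f
    simp
  have h3 : pr (fun f : Sym2 V → Fin q => (∀ s ∈ S, f s(y, s) = 0) ∧ f s(y, r) = 0) =
      (1 / (q : ℝ)) ^ (m + 1) := by
    have : (insert r S).card = m + 1 := by rw [card_insert_of_notMem hr, hS]
    rw [← this, ← card_star (insert r S) y, ← pr_zero]
    apply pr_congr
    intro f
    simp
    tauto
  rw [h2, h3] at h1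
  linarith

/-- No candidate in the block `κ`. -/
def NoCand {K b : ℕ} (f : Sym2 (Fin K × Fin b) → Fin q) (S : Finset (Fin K × Fin b))
    (r : Fin K × Fin b) (κ : Fin K) : Prop :=
  ∀ j : Fin b, (κ, j) ∉ insert r S → ¬ ((∀ s ∈ S, f s((κ, j), s) = 0) ∧ f s((κ, j), r) ≠ 0)

theorem pr_noCand {m K b : ℕ} (S : Finset (Fin K × Fin b)) (hS : S.card = m)
    (r : Fin K × Fin b) (hr : r ∉ S) (κ : Fin K) :
    pr (fun f : Sym2 (Fin K × Fin b) → Fin q => NoCand f S r κ) ≤
      (1 - ((1 / (q : ℝ)) ^ m - (1 / (q : ℝ)) ^ (m + 1))) ^ (b - (m + 1)) := by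
  classical
  have hq : 0 < q := Nat.pos_of_ne_zero (NeZero.ne q)
  have hq1 : (1 : ℝ) ≤ q := by exact_mod_cast hq
  have hq2 : (1 : ℝ) / q ≤ 1 := by rw [div_le_one (by linarith)]; exact hq1
  have hq3 : (0 : ℝ) ≤ 1 / q := by positivity
  set c : ℝ := 1 - ((1 / (q : ℝ)) ^ m - (1 / (q : ℝ)) ^ (m + 1)) with hc
  have hc0 : 0 ≤ c := by
    rw [hc, pow_succ]
    have : (1 / (q : ℝ)) ^ m ≤ 1 := pow_le_one₀ hq3 hq2
    have h0 : 0 ≤ (1 / (q : ℝ)) ^ m := by positivity
    nlinarith [mul_nonneg h0 hq3]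
  have hc1 : c ≤ 1 := by
    rw [hc, pow_succ]
    have h0 : 0 ≤ (1 / (q : ℝ)) ^ m := by positivity
    nlinarith [mul_nonneg h0 (sub_nonneg.mpr hq2)]
  set Y : Finset (Fin b) := univ.filter fun j => (κ, j) ∉ insert r S with hY
  have h1 : pr (fun f : Sym2 (Fin K × Fin b) → Fin q => NoCand f S r κ) =
      pr (fun f : Sym2 (Fin K × Fin b) → Fin q => ∀ j ∈ Y,
        ¬ ((∀ s ∈ S, f s((κ, j), s) = 0) ∧ f s((κ, j), r) ≠ 0)) := by
    apply pr_congr
    intro f
    simp only [NoCand, hY, mem_filter, mem_univ, true_and]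
  rw [h1]
  have h2 := pr_forall_le (q := q) hq Y (fun j => (insert r S).image fun s => s((κ, j), s))
    (by
      intro y hy z hz hyz
      rw [Finset.disjoint_left]
      intro e he he'
      rw [mem_image] at he he'
      obtain ⟨s, hs, rfl⟩ := he
      obtain ⟨s', hs', hss⟩ := he'
      rw [hY, mem_filter] at hy hz
      have : ((κ, z) : Fin K × Fin b) ∈ s((κ, y), s) := by
        rw [← hss]; exact Sym2.mem_mk_left _ _
      rw [Sym2.mem_iff] at this
      rcases this with h | h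
      · exact hyz (Prod.mk.inj h).2.symm
      · rw [← h] at hs; exact hz.2 hs)
    (fun j f => ¬ ((∀ s ∈ S, f s((κ, j), s) = 0) ∧ f s((κ, j), r) ≠ 0))
    (by
      intro j f g hfg hf hg
      apply hf
      refine ⟨fun s hs => ?_, ?_⟩
      · rw [hfg _ (mem_image_of_mem _ (mem_insert_of_mem hs))]
        exact hg.1 s hs
      · rw [hfg _ (mem_image_of_mem _ (mem_insert_self _ _))]
        exact hg.2)
    c hc0
    (by
      intro j _
      rw [pr_cand S hS r hr])
  refine h2.trans ?_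
  apply pow_le_pow_of_le_one hc0 hc1
  have h3 : (univ : Finset (Fin b)) ⊆ Y ∪ (insert r S).image Prod.snd := by
    intro j _
    by_cases hj : (κ, j) ∈ insert r S
    · exact mem_union_right _ (mem_image.mpr ⟨_, hj, rfl⟩)
    · exact mem_union_left _ (by rw [hY, mem_filter]; exact ⟨mem_univ _, hj⟩)
  have h4 := (card_le_card h3).trans (card_union_le _ _)
  rw [card_univ, Fintype.card_fin] at h4
  have h5 : ((insert r S).image Prod.snd).card ≤ m + 1 := by
    refine card_image_le.trans ?_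
    rw [card_insert_of_notMem hr, hS]
  omega

/-- The numbers. -/
theorem numbers (m K A C : ℕ) (hK : 1 ≤ K) : ∃ y : ℕ, 1 ≤ y ∧
    ((K * (C * y ^ A) : ℕ) : ℝ) ^ (m + 1) * K * Real.exp ((m + 1) / 2) * Real.exp (-((y : ℝ) / 2))
      < 1 / 2 := by
  have h := Real.tendsto_pow_mul_exp_neg_atTop_nhds_zero (A * (m + 1))
  have h2 := h.comp (tendsto_natCast_atTop_atTop (R := ℝ))
  set M : ℝ := ((K * C : ℕ) : ℝ) ^ (m + 1) * K * Real.exp ((m + 1) / 2) * 2 ^ (A * (m + 1)) with hM
  have hM0 : 0 ≤ M := by positivity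
  have h3 := (h2.const_mul M)
  rw [mul_zero] at h3
  have h4 : ∀ᶠ n : ℕ in Filter.atTop, M * ((n : ℝ) ^ (A * (m + 1)) * Real.exp (-(n : ℝ))) < 1 / 2 := by
    have := h3.eventually (gt_mem_nhds (show (0 : ℝ) < 1 / 2 by norm_num))
    simpa using this
  obtain ⟨n, hn1, hn2⟩ := (h4.and (Filter.eventually_ge_atTop 1)).exists
  refine ⟨2 * n, by omega, ?_⟩
  refine lt_of_eq_of_lt ?_ hn1
  rw [hM]
  push_cast
  have e1 : (2 * (n : ℝ)) / 2 = n := by ring
  rw [e1]
  ring

theorem exists_good {m : ℕ} (hm : 2 ≤ m) : ∃ (K b q : ℕ) (_ : NeZero q)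
    (f : Sym2 (Fin K × Fin b) → Fin q) (T : ℕ), m + T * (2 * m + 2) < K ∧ m + 1 < b ∧
      (∀ (S : Finset (Fin K × Fin b)) (r : Fin K × Fin b) (κ : Fin K), S.card = m → r ∉ S →
        ¬ NoCand f S r κ) ∧
      (∀ S : Finset (Fin K × Fin b), S.card = m → ¬ Chain f S (2 * m + 2) T S) := by
  classical
  set T : ℕ := m * m + 1 with hT
  set w : ℕ := m + T * (2 * m + 2) with hw
  set K : ℕ := w + 1 with hK
  set C : ℕ := 4 * K ^ m * ((2 * m + 2) * 2 ^ (2 * m + 2) * K ^ (2 * m + 3) * w ^ (2 * m + 2)) ^ T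
    with hC
  set A : ℕ := m + (2 * m + 3) * T with hA
  obtain ⟨y, hy1, hy2⟩ := numbers m K (A * m + 1) (C ^ m) (by omega)
  set q : ℕ := C * y ^ A with hq
  have hw1 : 1 ≤ w := by
    have : 1 ≤ T * (2 * m + 2) := Nat.mul_pos (by omega) (by omega)
    omega
  have hC4 : 4 ≤ C := by
    rw [hC]
    have e1 : 1 ≤ K ^ m := Nat.one_le_pow _ _ (by omega)
    have e2 : 1 ≤ ((2 * m + 2) * 2 ^ (2 * m + 2) * K ^ (2 * m + 3) * w ^ (2 * m + 2)) ^ T := by
      apply Nat.one_le_pow
      positivity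
    nlinarith [Nat.mul_le_mul e1 e2]
  have hy0 : 1 ≤ y ^ A := Nat.one_le_pow _ _ hy1
  have hq4 : 4 ≤ q := by
    rw [hq]; nlinarith
  have : NeZero q := ⟨by omega⟩
  set b : ℕ := q ^ m * y with hb
  have hqr : (4 : ℝ) ≤ q := by exact_mod_cast hq4
  have hq0 : (0 : ℝ) < q := by linarith
  have hcardV : Fintype.card (Fin K × Fin b) = q ^ m * (K * y) := by
    rw [Fintype.card_prod, Fintype.card_fin, Fintype.card_fin, hb]; ring
  have hbm : m + 1 < b := by
    have e1 : m < 4 ^ m := Nat.lt_pow_self (by norm_num)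
    have e2 : 4 ^ m ≤ q ^ m := Nat.pow_le_pow_left hq4 m
    have e3 : 4 ^ m = 4 * 4 ^ (m - 1) := by
      obtain ⟨m', rfl⟩ : ∃ m', m = m' + 1 := ⟨m - 1, by omega⟩
      rw [pow_succ]; simp [mul_comm]
    have e4 : m - 1 < 4 ^ (m - 1) := Nat.lt_pow_self (by norm_num)
    have e5 : q ^ m ≤ b := by rw [hb]; exact Nat.le_mul_of_pos_right _ hy1
    omega
  -- the two unlikely events
  set N : ℕ := Fintype.card (Fin K × Fin b) with hN
  have hNr : (N : ℝ) = (q : ℝ) ^ m * (K * y) := by rw [hcardV]; push_cast; ring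
  have hP1 : pr (fun f : Sym2 (Fin K × Fin b) → Fin q =>
      ∃ S ∈ powersetCard m (univ : Finset (Fin K × Fin b)), Chain f S (2 * m + 2) T S) ≤ 1 / 4 := by
    refine (pr_exists _ _).trans ?_
    have h1 : ∀ S ∈ powersetCard m (univ : Finset (Fin K × Fin b)),
        pr (fun f : Sym2 (Fin K × Fin b) → Fin q => Chain f S (2 * m + 2) T S) ≤
          del m q (K * y) w ^ T := by
      intro S hS
      rw [mem_powersetCard] at hS
      have h := chain_bound (q := q) (V := Fin K × Fin b) hm (Nat.mul_pos (by omega) hy1) hw1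
        hcardV hS.2 T S ∅ (Subset.refl _) (by rw [hS.2]) (by simp)
      simpa using h
    refine (sum_le_sum h1).trans ?_
    rw [sum_const, nsmul_eq_mul, card_powersetCard, card_univ, ← hN]
    have h2 : ((N.choose m : ℕ) : ℝ) ≤ (N : ℝ) ^ m := by exact_mod_cast Nat.choose_le_pow N m
    have h3 : del m q (K * y) w ^ T * (N : ℝ) ^ m = 1 / 4 := by
      have hqC : (q : ℝ) = 4 * (K * y : ℝ) ^ m *
          (((2 * m + 2 : ℕ) : ℝ) * 2 ^ (2 * m + 2) * ((K * y : ℕ) : ℝ) ^ (2 * m + 3) *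
            (w : ℝ) ^ (2 * m + 2)) ^ T := by
        have e0 : ∀ a K' y' w' : ℝ, (a * (K' * y') * w') ^ T = (a * K' * w') ^ T * y' ^ T := by
          intro a K' y' w'
          rw [← mul_pow]
          ring
        rw [hq, hC, hA]
        push_cast
        rw [mul_pow (K : ℝ) (y : ℝ) (2 * m + 3), e0, ← pow_mul, pow_add, mul_pow]
        ring
      have hD : del m q (K * y) w = (((2 * m + 2 : ℕ) : ℝ) * 2 ^ (2 * m + 2) *
          ((K * y : ℕ) : ℝ) ^ (2 * m + 3) * (w : ℝ) ^ (2 * m + 2)) / q := rfl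
      set D : ℝ := (((2 * m + 2 : ℕ) : ℝ) * 2 ^ (2 * m + 2) *
          ((K * y : ℕ) : ℝ) ^ (2 * m + 3) * (w : ℝ) ^ (2 * m + 2)) with hDdef
      clear_value D
      rw [hD, hNr, div_pow]
      have e1 : (q : ℝ) ^ T = q ^ (m * m) * q := by rw [hT, pow_succ]
      rw [e1, mul_pow, ← pow_mul]
      rw [div_mul_eq_mul_div, div_eq_iff (by positivity)]
      calc D ^ T * ((q : ℝ) ^ (m * m) * ((K : ℝ) * y) ^ m)
          = (q : ℝ) ^ (m * m) * (1 / 4 * (4 * ((K : ℝ) * y) ^ m * D ^ T)) := by ring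
        _ = (q : ℝ) ^ (m * m) * (1 / 4 * q) := by rw [← hqC]
        _ = _ := by ring
    calc ((N.choose m : ℕ) : ℝ) * del m q (K * y) w ^ T
        ≤ (N : ℝ) ^ m * del m q (K * y) w ^ T := by
          apply mul_le_mul_of_nonneg_right h2
          have := del_nonneg m q (K * y) w
          positivity
      _ = 1 / 4 := by rw [mul_comm]; exact h3
  have hP2 : pr (fun f : Sym2 (Fin K × Fin b) → Fin q =>
      ∃ p ∈ (powersetCard m (univ : Finset (Fin K × Fin b)) ×ˢ (univ : Finset (Fin K × Fin b)) ×ˢ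
        (univ : Finset (Fin K))).filter (fun p => p.2.1 ∉ p.1), NoCand f p.1 p.2.1 p.2.2) < 1 / 2 := by
    refine (pr_exists _ _).trans_lt ?_
    have h1 : ∀ p ∈ (powersetCard m (univ : Finset (Fin K × Fin b)) ×ˢ
        (univ : Finset (Fin K × Fin b)) ×ˢ (univ : Finset (Fin K))).filter (fun p => p.2.1 ∉ p.1),
        pr (fun f : Sym2 (Fin K × Fin b) → Fin q => NoCand f p.1 p.2.1 p.2.2) ≤
          Real.exp ((m + 1) / 2) * Real.exp (-((y : ℝ) / 2)) := by
      rintro ⟨S, r, κ⟩ hp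
      simp only [mem_filter, mem_product, mem_powersetCard, mem_univ, and_true] at hp
      refine (pr_noCand S hp.1.2 r hp.2 κ).trans ?_
      have e1 : 1 - ((1 / (q : ℝ)) ^ m - (1 / (q : ℝ)) ^ (m + 1)) ≤
          Real.exp (-(1 / 2 * (1 / (q : ℝ)) ^ m)) := by
        have := Real.add_one_le_exp (-(1 / 2 * (1 / (q : ℝ)) ^ m))
        refine le_trans ?_ this
        rw [pow_succ]
        have h0 : 0 ≤ (1 / (q : ℝ)) ^ m := by positivity
        have h1 : 1 / (q : ℝ) ≤ 1 / 2 := by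
          apply one_div_le_one_div_of_le <;> linarith
        nlinarith
      have e0 : 0 ≤ 1 - ((1 / (q : ℝ)) ^ m - (1 / (q : ℝ)) ^ (m + 1)) := by
        have h0 : 0 ≤ (1 / (q : ℝ)) ^ m := by positivity
        have h1 : (1 / (q : ℝ)) ^ m ≤ 1 := by
          apply pow_le_one₀ (by positivity)
          rw [div_le_one hq0]; linarith
        have h2 : 0 ≤ (1 / (q : ℝ)) ^ (m + 1) := by positivity
        linarith
      refine (pow_le_pow_left₀ e0 e1 _).trans ?_
      rw [← Real.exp_nat_mul, ← Real.exp_add]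
      apply Real.exp_le_exp.mpr
      have e2 : (b : ℝ) - (m + 1) ≤ ((b - (m + 1) : ℕ) : ℝ) := by
        have : b ≤ (b - (m + 1)) + (m + 1) := by omega
        have : (b : ℝ) ≤ ((b - (m + 1) : ℕ) : ℝ) + ((m + 1 : ℕ) : ℝ) := by exact_mod_cast this
        push_cast at this
        linarith
      have e3 : (b : ℝ) * (1 / (q : ℝ)) ^ m = y := by
        rw [hb]; push_cast
        rw [one_div, inv_pow]
        field_simp
      have h0 : 0 ≤ (1 / (q : ℝ)) ^ m := by positivity
      have h1 : (1 / (q : ℝ)) ^ m ≤ 1 := by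
        apply pow_le_one₀ (by positivity)
        rw [div_le_one hq0]; linarith
      have e4 : (y : ℝ) - (m + 1) ≤ ((b - (m + 1) : ℕ) : ℝ) * (1 / (q : ℝ)) ^ m := by
        calc (y : ℝ) - (m + 1) ≤ (b : ℝ) * (1 / (q : ℝ)) ^ m - (m + 1) * (1 / (q : ℝ)) ^ m := by
              rw [e3]
              have : ((m : ℝ) + 1) * (1 / (q : ℝ)) ^ m ≤ (m + 1) * 1 := by
                apply mul_le_mul_of_nonneg_left h1; positivity
              linarith
          _ = ((b : ℝ) - (m + 1)) * (1 / (q : ℝ)) ^ m := by ring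
          _ ≤ _ := by exact mul_le_mul_of_nonneg_right e2 h0
      linarith
    refine (sum_le_sum h1).trans_lt ?_
    rw [sum_const, nsmul_eq_mul]
    have h2 : (((powersetCard m (univ : Finset (Fin K × Fin b)) ×ˢ (univ : Finset (Fin K × Fin b)) ×ˢ
        (univ : Finset (Fin K))).filter (fun p => p.2.1 ∉ p.1)).card : ℝ) ≤
        (N : ℝ) ^ (m + 1) * K := by
      have e1 : ((powersetCard m (univ : Finset (Fin K × Fin b)) ×ˢ
          (univ : Finset (Fin K × Fin b)) ×ˢ
          (univ : Finset (Fin K))).filter (fun p => p.2.1 ∉ p.1)).card ≤ N ^ (m + 1) * K := by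
        refine (card_filter_le _ _).trans ?_
        rw [card_product, card_product, card_powersetCard, card_univ, card_univ, Fintype.card_fin,
          ← hN, pow_succ, mul_assoc]
        exact Nat.mul_le_mul_right _ (Nat.choose_le_pow N m)
      exact_mod_cast e1
    have h3 : (N : ℝ) = ((K * (C ^ m * y ^ (A * m + 1)) : ℕ) : ℝ) := by
      rw [hcardV, hq]
      push_cast
      ring
    refine lt_of_le_of_lt ?_ hy2
    rw [← h3, mul_assoc _ (Real.exp _)]
    apply mul_le_mul_of_nonneg_right h2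
    positivity
  have hP : pr (fun f : Sym2 (Fin K × Fin b) → Fin q =>
      (∃ S ∈ powersetCard m (univ : Finset (Fin K × Fin b)), Chain f S (2 * m + 2) T S) ∨
      ∃ p ∈ (powersetCard m (univ : Finset (Fin K × Fin b)) ×ˢ (univ : Finset (Fin K × Fin b)) ×ˢ
        (univ : Finset (Fin K))).filter (fun p => p.2.1 ∉ p.1), NoCand f p.1 p.2.1 p.2.2) < 1 := by
    refine (pr_or _ _).trans_lt ?_
    linarith
  obtain ⟨f, hf⟩ := exists_of_pr_lt (by omega) hP
  push Not at hf
  refine ⟨K, b, q, inferInstance, f, T, by omega, hbm, ?_, ?_⟩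
  · intro S r κ hS hr
    apply hf.2 (S, r, κ)
    simp [hS, hr]
  · intro S hS
    apply hf.1
    simp [hS]

end Pool.Agent.Q108.Cop
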