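import Pool.Agent.Q108.Cop.Graph

/-!
# Cops and Robbers: strategies with full memory
-/

namespace Pool.Agent.Q108.Cop

open Finset

/-- The history of the robber before time `n`: his positions `r (n - 1), …, r 0`. -/
def hist {V : Type} (r : ℕ → V) (n : ℕ) : List V := ((List.range n).map r).reverse

theorem hist_succ {V : Type} (r : ℕ → V) (n : ℕ) : hist r (n + 1) = r n :: hist r n := by
  simp [hist, List.range_succ]

/-- `k` cops win on `G`: there is a strategy `σ`, which tells the positions of the cops as a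
function of the past positions of the robber (the last one first; `σ []` is the placement of the
cops), which moves every cop legally and catches every robber. -/
def CopsWin {V : Type} (G : SimpleGraph V) (k : ℕ) : Prop :=
  ∃ σ : List V → Fin k → V, (∀ h r i, Move G (σ h i) (σ (r :: h) i)) ∧
    ∀ r : ℕ → V, (∀ n, Move G (r n) (r (n + 1))) →
      ∃ n i, σ (hist r n) i = r n ∨ σ (hist r (n + 1)) i = r n

/-- The cop number. -/
noncomputable def copNumber {V : Type} (G : SimpleGraph V) : ℕ := sInf {k | CopsWin G k}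

theorem copsWin_card {n : ℕ} (G : SimpleGraph (Fin n)) : CopsWin G n :=
  ⟨fun _ i => i, fun _ _ _ => Or.inl rfl, fun r _ => ⟨0, r 0, Or.inl rfl⟩⟩

theorem not_copsWin_of_evade {V : Type} [Nonempty V] {m : ℕ} {G : SimpleGraph V} (hE : Evade m G)
    (hbig : ∀ P : Finset V, P.card ≤ m → ∃ r, r ∉ P) {j : ℕ} (hj : j ≤ m) : ¬ CopsWin G j := by
  classical
  rintro ⟨σ, hσ, hwin⟩
  -- the robber's reply to a history
  have himg : ∀ c : Fin j → V, (univ.image c).card ≤ m := by
    intro c
    refine card_image_le.trans ?_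
    rw [card_univ, Fintype.card_fin]
    exact hj
  have h0 : ∃ r, ∀ i, ¬ Move G (σ [] i) r := by
    obtain ⟨r, hr⟩ := hbig _ (himg (σ []))
    obtain ⟨r', _, hr'⟩ := hE _ r (himg (σ [])) hr
    exact ⟨r', fun i => hr' _ (mem_image_of_mem _ (mem_univ _))⟩
  have h1 : ∀ h r, (∀ i, ¬ Move G (σ h i) r) →
      ∃ r', Move G r r' ∧ ∀ i, ¬ Move G (σ (r :: h) i) r' := by
    intro h r hr
    have hr2 : r ∉ univ.image (σ (r :: h)) := by
      intro hmem
      rw [mem_image] at hmem
      obtain ⟨i, _, hi⟩ := hmem
      have := hσ h r i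
      rw [hi] at this
      exact hr i this
    obtain ⟨r', hr1, hr'⟩ := hE _ r (himg (σ (r :: h))) hr2
    exact ⟨r', hr1, fun i => hr' _ (mem_image_of_mem _ (mem_univ _))⟩
  choose r₀ hr₀ using h0
  choose! nxt hnxt1 hnxt2 using h1
  -- the play as a sequence of pairs (history, position)
  let st : ℕ → List V × V := fun n =>
    Nat.rec ([], r₀) (fun _ s => (s.2 :: s.1, nxt s.1 s.2)) n
  have hst0 : st 0 = ([], r₀) := rfl
  have hst : ∀ n, st (n + 1) = ((st n).2 :: (st n).1, nxt (st n).1 (st n).2) := fun n => rfl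
  have hinv : ∀ n, ∀ i, ¬ Move G (σ (st n).1 i) (st n).2 := by
    intro n
    induction n with
    | zero => rw [hst0]; exact hr₀
    | succ n ih =>
      rw [hst]
      exact hnxt2 _ _ ih
  have hhist : ∀ n, hist (fun n => (st n).2) n = (st n).1 := by
    intro n
    induction n with
    | zero => rfl
    | succ n ih => rw [hist_succ, ih, hst]
  obtain ⟨n, i, hni⟩ := hwin (fun n => (st n).2) (by
    intro n
    show Move G (st n).2 (st (n + 1)).2
    rw [hst]
    exact hnxt1 _ _ (hinv n))
  rw [hhist, hhist] at hni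
  rcases hni with h | h
  · exact hinv n i (Or.inl h)
  · have h2 := hσ (st n).1 (st n).2 i
    have h3 : (st (n + 1)).1 = (st n).2 :: (st n).1 := by rw [hst]
    rw [h3] at h
    rw [h] at h2
    exact hinv n i h2

/-- Passing to a component and to `Fin n`. -/
theorem exists_connected {m : ℕ} (hm : 2 ≤ m) : ∃ (n : ℕ) (G : SimpleGraph (Fin n)),
    G.Connected ∧ IsEmpty (SimpleGraph.pathGraph (2 * m + 2) ↪g G) ∧ m < copNumber G := by
  classical
  obtain ⟨V, hV1, hV2, ⟨v₀⟩, G, hdeg, hE, hfree⟩ := exists_graph hm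
  set C := G.connectedComponentMk v₀ with hC
  set W : Set V := C.supp with hW
  have hmove : ∀ a ∈ W, ∀ b, Move G a b → b ∈ W := by
    intro a ha b hab
    rcases hab with rfl | hab
    · exact ha
    · rw [hW, SimpleGraph.ConnectedComponent.mem_supp_iff] at ha ⊢
      rw [← ha]
      exact (SimpleGraph.ConnectedComponent.connectedComponentMk_eq_of_adj hab).symm
  have hv₀ : v₀ ∈ W := by rw [hW, SimpleGraph.ConnectedComponent.mem_supp_iff]
  let n := Fintype.card W
  let e : Fin n ≃ W := (Fintype.equivFin W).symm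
  let G' : SimpleGraph (Fin n) := (G.induce W).comap e
  have iso : G' ≃g G.induce W := ⟨e, Iff.rfl⟩
  have hadj : ∀ a b : Fin n, G'.Adj a b ↔ G.Adj (e a) (e b) := fun a b => Iff.rfl
  have hmv : ∀ a b : Fin n, Move G' a b ↔ Move G (e a) (e b) := by
    intro a b
    unfold Move
    rw [hadj]
    constructor
    · rintro (rfl | h)
      · exact Or.inl rfl
      · exact Or.inr h
    · rintro (h | h)
      · exact Or.inl (e.injective (Subtype.ext h))
      · exact Or.inr h
  have hconn : G'.Connected := by
    have h1 : (G.induce W).Connected := C.connected_toSimpleGraph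
    exact iso.connected_iff.mpr h1
  have hfree' : IsEmpty (SimpleGraph.pathGraph (2 * m + 2) ↪g G') := by
    constructor
    intro φ
    apply hfree.false
    exact (SimpleGraph.Embedding.induce W).comp ((iso.toEmbedding).comp φ)
  have hE' : Evade m G' := by
    intro P r hP hr
    have hP' : (P.image fun p => ((e p : W) : V)).card ≤ m := card_image_le.trans hP
    have hr' : ((e r : W) : V) ∉ P.image fun p => ((e p : W) : V) := by
      intro h
      rw [mem_image] at h
      obtain ⟨p, hp, hpr⟩ := h
      have : p = r := e.injective (Subtype.ext hpr)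
      exact hr (this ▸ hp)
    obtain ⟨r', h1, h2⟩ := hE _ _ hP' hr'
    have hr'W := hmove _ (e r).2 _ h1
    refine ⟨e.symm ⟨r', hr'W⟩, ?_, ?_⟩
    · rw [hmv, Equiv.apply_symm_apply]
      exact h1
    · intro p hp hmp
      rw [hmv, Equiv.apply_symm_apply] at hmp
      exact h2 _ (mem_image_of_mem _ hp) hmp
  have hbig : ∀ P : Finset (Fin n), P.card ≤ m → ∃ r, r ∉ P := by
    intro P hP
    by_contra hcon
    push Not at hcon
    obtain ⟨Y, hY1, hY2⟩ := hdeg v₀
    have h1 : Y ⊆ P.image fun p => ((e p : W) : V) := by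
      intro y hy
      have hyW := hmove _ hv₀ y (Or.inr (hY2 y hy))
      rw [mem_image]
      exact ⟨e.symm ⟨y, hyW⟩, hcon _, by rw [Equiv.apply_symm_apply]⟩
    have h2 := (card_le_card h1).trans card_image_le
    omega
  refine ⟨n, G', hconn, hfree', ?_⟩
  have : Nonempty (Fin n) := ⟨e.symm ⟨v₀, hv₀⟩⟩
  unfold copNumber
  by_contra hcon
  push Not at hcon
  have hmem := Nat.sInf_mem (s := {k | CopsWin G' k}) ⟨n, copsWin_card G'⟩
  exact not_copsWin_of_evade hE' hbig hcon hmem

end Pool.Agent.Q108.Cop
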