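import Pool.Agent.Q108.Cop.Exist

/-!
# The graph without long induced paths in which the robber can always move to safety
-/

namespace Pool.Agent.Q108.Cop

open Finset

/-- A move of a player: staying put or moving to an adjacent vertex. -/
def Move {V : Type} (G : SimpleGraph V) (x y : V) : Prop := x = y ∨ G.Adj x y

/-- Whatever the positions of `m` cops, a robber who is not caught can move to a vertex that no
cop can reach. -/
def Evade {V : Type} (m : ℕ) (G : SimpleGraph V) : Prop :=
  ∀ (P : Finset V) (r : V), P.card ≤ m → r ∉ P → ∃ r', Move G r r' ∧ ∀ p ∈ P, ¬ Move G p r'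

section

variable {V : Type} [Fintype V] [DecidableEq V] {q : ℕ} [NeZero q]

/-- A pair in a copy. -/
def Bad (k : ℕ) (f : Sym2 V → Fin q) (e : Sym2 V) : Prop :=
  ∃ x : Fin k → V, IsCopy f x ∧ ∃ i j : Fin k, (i : ℕ) + 2 ≤ j ∧ s(x i, x j) = e

/-- The graph. -/
def gr (k : ℕ) (f : Sym2 V → Fin q) : SimpleGraph V where
  Adj a b := a ≠ b ∧ (f s(a, b) ≠ 0 ∨ Bad k f s(a, b))
  symm := ⟨by
    intro a b h
    refine ⟨h.1.symm, ?_⟩
    rw [Sym2.eq_swap]
    exact h.2⟩
  loopless := ⟨fun a h => h.1 rfl⟩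

omit [Fintype V] [DecidableEq V] in
theorem gr_pathFree {k : ℕ} (hk : 3 ≤ k) (f : Sym2 V → Fin q) :
    IsEmpty (SimpleGraph.pathGraph k ↪g gr k f) := by
  constructor
  intro e
  have h1 : ∀ i j : Fin k, (i : ℕ) + 2 ≤ j → f s(e i, e j) = 0 ∧ ¬ Bad k f s(e i, e j) := by
    intro i j hij
    have h2 : ¬ (gr k f).Adj (e i) (e j) := by
      intro h
      have := e.map_rel_iff.mp h
      rw [SimpleGraph.pathGraph_adj] at this
      omega
    have h3 : e i ≠ e j := by
      intro h
      have := e.injective h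
      rw [this] at hij
      omega
    by_contra hcon
    apply h2
    refine ⟨h3, ?_⟩
    by_contra h4
    push Not at h4
    exact hcon ⟨h4.1, h4.2⟩
  have h2 : IsCopy f (fun i => e i) := ⟨e.injective, fun i j hij => (h1 i j hij).1⟩
  have h3 := (h1 ⟨0, by omega⟩ ⟨2, by omega⟩ (by simp)).2
  exact h3 ⟨fun i => e i, h2, ⟨0, by omega⟩, ⟨2, by omega⟩, by simp, rfl⟩

end

theorem exists_graph {m : ℕ} (hm : 2 ≤ m) : ∃ (V : Type) (_ : Fintype V) (_ : DecidableEq V)
    (_ : Nonempty V) (G : SimpleGraph V), (∀ r : V, ∃ Y : Finset V, m < Y.card ∧ ∀ y ∈ Y, G.Adj r y) ∧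
      Evade m G ∧ IsEmpty (SimpleGraph.pathGraph (2 * m + 2) ↪g G) := by
  classical
  obtain ⟨K, b, q, hqz, f, T, hT, hb, hcand, hch⟩ := exists_good hm
  have hK : 0 < K := by omega
  have hcardV : m + 1 < Fintype.card (Fin K × Fin b) := by
    rw [Fintype.card_prod, Fintype.card_fin, Fintype.card_fin]
    exact hb.trans_le (Nat.le_mul_of_pos_left _ hK)
  -- candidates
  have hc : ∀ (S : Finset (Fin K × Fin b)) (r : Fin K × Fin b), S.card = m → r ∉ S →
      ∃ y : Fin K → Fin b, ∀ κ, (κ, y κ) ∉ insert r S ∧ (∀ s ∈ S, f s((κ, y κ), s) = 0) ∧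
        f s((κ, y κ), r) ≠ 0 := by
    intro S r hS hr
    have h1 : ∀ κ, ∃ j, (κ, j) ∉ insert r S ∧ (∀ s ∈ S, f s((κ, j), s) = 0) ∧
        f s((κ, j), r) ≠ 0 := by
      intro κ
      have := hcand S r κ hS hr
      unfold NoCand at this
      push Not at this
      obtain ⟨j, hj1, hj2, hj3⟩ := this
      exact ⟨j, hj1, hj2, hj3⟩
    choose y hy using h1
    exact ⟨y, hy⟩
  have hext : ∀ (P : Finset (Fin K × Fin b)) (r : Fin K × Fin b), P.card ≤ m → r ∉ P →
      ∃ S : Finset (Fin K × Fin b), P ⊆ S ∧ S.card = m ∧ r ∉ S := by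
    intro P r hP hr
    have h1 : P ⊆ (univ : Finset (Fin K × Fin b)).erase r := by
      intro p hp
      rw [mem_erase]
      exact ⟨fun h => hr (h ▸ hp), mem_univ _⟩
    have h2 : m ≤ ((univ : Finset (Fin K × Fin b)).erase r).card := by
      rw [card_erase_of_mem (mem_univ _), card_univ]
      omega
    obtain ⟨S, hS1, hS2, hS3⟩ := exists_subsuperset_card_eq h1 hP h2
    exact ⟨S, hS1, hS3, fun h => (mem_erase.mp (hS2 h)).1 rfl⟩
  have hadj : ∀ (S : Finset (Fin K × Fin b)) (r y : Fin K × Fin b), y ∉ insert r S →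
      f s(y, r) ≠ 0 → (gr (2 * m + 2) f).Adj r y := by
    intro S r y hy hyr
    refine ⟨?_, Or.inl ?_⟩
    · rintro rfl
      exact hy (mem_insert_self _ _)
    · rw [Sym2.eq_swap]; exact hyr
  refine ⟨Fin K × Fin b, inferInstance, inferInstance, ⟨(⟨0, hK⟩, ⟨0, by omega⟩)⟩,
    gr (2 * m + 2) f, ?_, ?_, gr_pathFree (by omega) f⟩
  · intro r
    obtain ⟨S, _, hS, hrS⟩ := hext ∅ r (by simp) (by simp)
    obtain ⟨y, hy⟩ := hc S r hS hrS
    refine ⟨univ.image fun κ => (κ, y κ), ?_, ?_⟩
    · rw [card_image_of_injective, card_univ, Fintype.card_fin]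
      · have : 0 ≤ T * (2 * m + 2) := Nat.zero_le _
        omega
      · intro κ κ' h
        exact (Prod.mk.inj h).1
    · intro z hz
      rw [mem_image] at hz
      obtain ⟨κ, _, rfl⟩ := hz
      exact hadj S r _ (hy κ).1 (hy κ).2.2
  · intro P r hP hr
    obtain ⟨S, hPS, hS, hrS⟩ := hext P r hP hr
    obtain ⟨y, hy⟩ := hc S r hS hrS
    by_contra hcon
    push Not at hcon
    -- every candidate lies in a copy
    have h1 : ∀ κ, ∃ x : Fin (2 * m + 2) → Fin K × Fin b, ∃ ρ : Fin (2 * m + 2), IsCopy f x ∧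
        x ρ = (κ, y κ) ∧ ∃ a, Far ρ a ∧ x a ∈ S := by
      intro κ
      obtain ⟨p, hp, hmv⟩ := hcon (κ, y κ) (Or.inr (hadj S r _ (hy κ).1 (hy κ).2.2))
      have hpS := hPS hp
      rcases hmv with hmv | hmv
      · exfalso
        apply (hy κ).1
        rw [← hmv]
        exact mem_insert_of_mem hpS
      · rcases hmv.2 with h | h
        · exfalso
          apply h
          rw [Sym2.eq_swap]
          exact (hy κ).2.1 p hpS
        · obtain ⟨x, hx, i, j, hij, hxij⟩ := h
          rw [Sym2.eq_iff] at hxij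
          rcases hxij with ⟨h2, h3⟩ | ⟨h2, h3⟩
          · exact ⟨x, j, hx, h3, i, Or.inr hij, h2 ▸ hpS⟩
          · exact ⟨x, i, hx, h2, j, Or.inl hij, h3 ▸ hpS⟩
    have h2 : ∀ t : ℕ, ∀ W : Finset (Fin K × Fin b), W.card + t * (2 * m + 2) < K →
        Chain f S (2 * m + 2) t W := by
      intro t
      induction t with
      | zero => intro W _; trivial
      | succ t ih =>
        intro W hW
        have h3 : ∃ κ, (κ, y κ) ∉ W := by
          by_contra h4
          push Not at h4
          have h5 : (univ.image fun κ => (κ, y κ)) ⊆ W := by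
            intro z hz
            rw [mem_image] at hz
            obtain ⟨κ, _, rfl⟩ := hz
            exact h4 κ
          have h6 := card_le_card h5
          rw [card_image_of_injective, card_univ, Fintype.card_fin] at h6
          · omega
          · intro κ κ' h
            exact (Prod.mk.inj h).1
        obtain ⟨κ, hκ⟩ := h3
        obtain ⟨x, ρ, hx, hxρ, ha⟩ := h1 κ
        refine ⟨x, ρ, hx, by rw [hxρ]; exact hκ, ha, ?_, ih _ ?_⟩
        · intro s hs
          rw [hxρ]
          exact (hy κ).2.1 s hs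
        · have e1 : (univ.image x).card ≤ 2 * m + 2 := by
            refine card_image_le.trans ?_
            rw [card_univ, Fintype.card_fin]
          have e2 := card_union_le W (univ.image x)
          rw [add_mul, one_mul] at hW
          omega
    exact hch S hS (h2 T S (by rw [hS]; exact hT))

end Pool.Agent.Q108.Cop
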