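import Mathlib

/-!
# Pairs of far positions on a path
-/

namespace Pool.Agent.Q108.Cop

open Finset

theorem two_mul_card_lt {k : ℕ} (T : Finset (Fin k)) :
    2 * ((T ×ˢ T).filter fun p => p.1 < p.2).card = T.card * (T.card - 1) := by
  have h1 : T.offDiag = ((T ×ˢ T).filter fun p => p.1 < p.2) ∪
      ((T ×ˢ T).filter fun p => p.2 < p.1) := by
    ext p
    simp only [mem_offDiag, mem_union, mem_filter, mem_product]
    constructor
    · rintro ⟨h1, h2, h3⟩
      rcases lt_or_gt_of_ne h3 with h | h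
      · exact Or.inl ⟨⟨h1, h2⟩, h⟩
      · exact Or.inr ⟨⟨h1, h2⟩, h⟩
    · rintro (⟨⟨h1, h2⟩, h⟩ | ⟨⟨h1, h2⟩, h⟩)
      · exact ⟨h1, h2, h.ne⟩
      · exact ⟨h1, h2, h.ne'⟩
  have h2 : Disjoint ((T ×ˢ T).filter fun p => p.1 < p.2)
      ((T ×ˢ T).filter fun p => p.2 < p.1) := by
    rw [Finset.disjoint_left]
    intro p hp hp'
    simp only [mem_filter] at hp hp'
    exact absurd hp.2 (not_lt.mpr hp'.2.le)
  have h3 : ((T ×ˢ T).filter fun p => p.2 < p.1).card =
      ((T ×ˢ T).filter fun p => p.1 < p.2).card := by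
    refine card_bij' (fun p _ => p.swap) (fun p _ => p.swap) ?_ ?_ ?_ ?_
    · intro p hp
      simp only [mem_filter, mem_product, Prod.fst_swap, Prod.snd_swap] at hp ⊢
      tauto
    · intro p hp
      simp only [mem_filter, mem_product, Prod.fst_swap, Prod.snd_swap] at hp ⊢
      tauto
    · intro p _; simp
    · intro p _; simp
  have h4 := offDiag_card T
  rw [h1, card_union_of_disjoint h2, h3] at h4
  rw [Nat.mul_sub_one]
  omega

/-- The pairs of positions at distance at least two which meet `Z`. -/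
def farMeet {k : ℕ} (Z : Finset (Fin k)) : Finset (Fin k × Fin k) :=
  univ.filter fun p => (p.1 : ℕ) + 2 ≤ p.2 ∧ (p.1 ∈ Z ∨ p.2 ∈ Z)

theorem card_farMeet_aux {k : ℕ} (Z : Finset (Fin k)) :
    k * (k - 1) ≤ 2 * (farMeet Z).card + 2 * min (2 * Z.card) (k - 1) +
      (k - Z.card) * (k - Z.card - 1) := by
  classical
  set A : Finset (Fin k × Fin k) := univ.filter fun p => p.1 < p.2 ∧ (p.1 ∈ Z ∨ p.2 ∈ Z) with hA
  set C : Finset (Fin k × Fin k) :=
    univ.filter fun p => (p.2 : ℕ) = p.1 + 1 ∧ (p.1 ∈ Z ∨ p.2 ∈ Z) with hC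
  have h1 : A ⊆ farMeet Z ∪ C := by
    intro p hp
    simp only [hA, hC, farMeet, mem_filter, mem_univ, true_and, mem_union] at hp ⊢
    have := hp.1
    rw [Fin.lt_def] at this
    by_cases h : (p.2 : ℕ) = p.1 + 1
    · exact Or.inr ⟨h, hp.2⟩
    · exact Or.inl ⟨by omega, hp.2⟩
  have h2 : C.card ≤ 2 * Z.card := by
    have : C ⊆ (univ.filter fun p : Fin k × Fin k => (p.2 : ℕ) = p.1 + 1 ∧ p.1 ∈ Z) ∪
        (univ.filter fun p : Fin k × Fin k => (p.2 : ℕ) = p.1 + 1 ∧ p.2 ∈ Z) := by
      intro p hp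
      simp only [hC, mem_filter, mem_univ, true_and, mem_union] at hp ⊢
      tauto
    refine (card_le_card this).trans ((card_union_le _ _).trans ?_)
    have e1 : (univ.filter fun p : Fin k × Fin k => (p.2 : ℕ) = p.1 + 1 ∧ p.1 ∈ Z).card ≤ Z.card := by
      apply card_le_card_of_injOn Prod.fst
      · intro p hp
        simp only [coe_filter, mem_univ, true_and, Set.mem_ofPred_eq] at hp
        exact hp.2
      · intro p hp p' hp' h
        simp only [coe_filter, mem_univ, true_and, Set.mem_ofPred_eq] at hp hp'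
        apply Prod.ext h
        apply Fin.ext
        rw [hp.1, hp'.1, h]
    have e2 : (univ.filter fun p : Fin k × Fin k => (p.2 : ℕ) = p.1 + 1 ∧ p.2 ∈ Z).card ≤ Z.card := by
      apply card_le_card_of_injOn Prod.snd
      · intro p hp
        simp only [coe_filter, mem_univ, true_and, Set.mem_ofPred_eq] at hp
        exact hp.2
      · intro p hp p' hp' h
        simp only [coe_filter, mem_univ, true_and, Set.mem_ofPred_eq] at hp hp'
        refine Prod.ext ?_ h
        apply Fin.ext
        have := hp.1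
        have := hp'.1
        have : (p.2 : ℕ) = p'.2 := by rw [h]
        omega
    omega
  have h3 : C.card ≤ k - 1 := by
    rcases Nat.eq_zero_or_pos k with rfl | hk
    · have : C = ∅ := by
        apply eq_empty_of_forall_notMem
        rintro ⟨a, _⟩
        exact a.elim0
      simp [this]
    · have : C.card ≤ ((univ : Finset (Fin k)).erase ⟨0, hk⟩).card := by
        apply card_le_card_of_injOn Prod.snd
        · intro p hp
          simp only [hC, coe_filter, mem_univ, true_and, Set.mem_ofPred_eq] at hp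
          simp only [coe_erase, coe_univ, Set.mem_sdiff, Set.mem_univ, Set.mem_singleton_iff, true_and]
          intro h
          have := hp.1
          rw [h] at this
          simp at this
        · intro p hp p' hp' h
          simp only [hC, coe_filter, mem_univ, true_and, Set.mem_ofPred_eq] at hp hp'
          refine Prod.ext ?_ h
          apply Fin.ext
          have := hp.1
          have := hp'.1
          have : (p.2 : ℕ) = p'.2 := by rw [h]
          omega
      rwa [card_erase_of_mem (mem_univ _), card_univ, Fintype.card_fin] at this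
  have h4 : ((univ ×ˢ univ : Finset (Fin k × Fin k)).filter fun p => p.1 < p.2) =
      A ∪ ((Zᶜ ×ˢ Zᶜ).filter fun p => p.1 < p.2) := by
    ext p
    simp only [hA, mem_filter, mem_product, mem_univ, true_and, mem_union, mem_compl]
    tauto
  have h5 := two_mul_card_lt (univ : Finset (Fin k))
  have h6 := two_mul_card_lt (Zᶜ)
  rw [card_univ, Fintype.card_fin] at h5
  rw [card_compl, Fintype.card_fin] at h6
  have h7 : ((univ ×ˢ univ : Finset (Fin k × Fin k)).filter fun p => p.1 < p.2).card ≤
      A.card + ((Zᶜ ×ˢ Zᶜ).filter fun p => p.1 < p.2).card := by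
    rw [h4]; exact card_union_le _ _
  have h8 : A.card ≤ (farMeet Z).card + C.card := (card_le_card h1).trans (card_union_le _ _)
  have h9 : C.card ≤ min (2 * Z.card) (k - 1) := le_min h2 h3
  omega

theorem card_farMeet {m : ℕ} (hm : 2 ≤ m) (Z : Finset (Fin (2 * m + 2))) (h1 : 1 ≤ Z.card)
    (h2 : Z.card ≤ 2 * m) : m * Z.card + 1 ≤ (farMeet Z).card := by
  have h := card_farMeet_aux Z
  generalize (farMeet Z).card = F at *
  generalize Z.card = z at *
  have e1 : 2 * m + 2 - 1 = 2 * m + 1 := by omega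
  rw [e1] at h
  obtain ⟨y, hy⟩ : ∃ y, 2 * m = z + y := ⟨2 * m - z, by omega⟩
  have e2 : 2 * m + 2 - z = y + 2 := by omega
  rw [e2] at h
  have e3 : y + 2 - 1 = y + 1 := by omega
  rw [e3] at h
  by_cases hy2 : 2 ≤ y
  · have h' : min (2 * z) (2 * m + 1) ≤ 2 * z := min_le_left _ _
    have h'' : (2 * m + 2) * (2 * m + 1) ≤ 2 * F + 4 * z + (y + 2) * (y + 1) := by omega
    zify at h'' hy h1 hy2 hm ⊢
    nlinarith
  · have h' : min (2 * z) (2 * m + 1) ≤ 2 * m + 1 := min_le_right _ _
    have h'' : (2 * m + 2) * (2 * m + 1) ≤ 2 * F + 2 * (2 * m + 1) + (y + 2) * (y + 1) := by omega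
    have hy3 : y = 0 ∨ y = 1 := by omega
    rcases hy3 with rfl | rfl
    · have : z = 2 * m := by omega
      subst this
      nlinarith
    · have : z = 2 * m - 1 := by omega
      obtain ⟨m', rfl⟩ : ∃ m', m = m' + 2 := ⟨m - 2, by omega⟩
      have : z = 2 * m' + 3 := by omega
      subst this
      nlinarith

/-- Far positions. -/
def Far {k : ℕ} (i j : Fin k) : Prop := (i : ℕ) + 2 ≤ j ∨ (j : ℕ) + 2 ≤ i

instance {k : ℕ} (i j : Fin k) : Decidable (Far i j) := by unfold Far; infer_instance

theorem card_far {m : ℕ} (ρ : Fin (2 * m + 2)) :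
    2 * m - 1 ≤ (univ.filter fun j => Far ρ j).card := by
  have : (univ : Finset (Fin (2 * m + 2))) ⊆ (univ.filter fun j => Far ρ j) ∪
      (univ.filter fun j : Fin (2 * m + 2) => (j : ℕ) + 1 = ρ ∨ j = ρ ∨ (j : ℕ) = ρ + 1) := by
    intro j _
    simp only [mem_union, mem_filter, mem_univ, true_and]
    by_cases h : j = ρ
    · simp [h]
    · have h1 : (j : ℕ) ≠ ρ := fun h' => h (Fin.ext h')
      simp only [h, false_or]
      have : ((ρ : ℕ) + 2 ≤ j ∨ (j : ℕ) + 2 ≤ ρ) ∨ ((j : ℕ) + 1 = ρ ∨ (j : ℕ) = ρ + 1) := by omega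
      exact this
  have h2 := card_le_card this
  rw [card_univ, Fintype.card_fin] at h2
  have h3 : (univ.filter fun j : Fin (2 * m + 2) => (j : ℕ) + 1 = ρ ∨ j = ρ ∨ (j : ℕ) = ρ + 1).card
      ≤ 3 := by
    have : (univ.filter fun j : Fin (2 * m + 2) => (j : ℕ) + 1 = ρ ∨ j = ρ ∨ (j : ℕ) = ρ + 1).card ≤
        (Finset.Icc ((ρ : ℕ) - 1) ((ρ : ℕ) + 1)).card := by
      apply card_le_card_of_injOn (fun j : Fin (2 * m + 2) => (j : ℕ))
      · intro j hj
        simp only [coe_filter, mem_univ, true_and, Set.mem_ofPred_eq] at hj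
        simp only [coe_Icc, Set.mem_Icc]
        rcases hj with h | h | h
        · omega
        · rw [h]; omega
        · omega
      · intro a _ b _ h
        exact Fin.ext h
    refine this.trans ?_
    rw [Nat.card_Icc]
    omega
  have h4 := card_union_le (univ.filter fun j => Far ρ j)
      (univ.filter fun j : Fin (2 * m + 2) => (j : ℕ) + 1 = ρ ∨ j = ρ ∨ (j : ℕ) = ρ + 1)
  omega

end Pool.Agent.Q108.Cop
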