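import Pool.Agent.Q108.Cop.Pairs

/-!
# One step of the exposure of copies of the complement of a path
-/

namespace Pool.Agent.Q108.Cop

open Finset

variable {V : Type} [DecidableEq V]

/-- The pairs of vertices that a step `(x, ρ)` needs and that are not inside `W`. -/
def New (S W : Finset V) {k : ℕ} (x : Fin k → V) (ρ : Fin k) : Finset (Sym2 V) :=
  S.image (fun s => s(x ρ, s)) ∪
    ((univ : Finset (Fin k × Fin k)).filter fun p =>
      (p.1 : ℕ) + 2 ≤ p.2 ∧ ¬ (x p.1 ∈ W ∧ x p.2 ∈ W)).image (fun p => s(x p.1, x p.2))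

/-- The positions other than `ρ` outside `W`. -/
def Zset (W : Finset V) {k : ℕ} (x : Fin k → V) (ρ : Fin k) : Finset (Fin k) :=
  univ.filter fun i => i ≠ ρ ∧ x i ∉ W

theorem card_new {m : ℕ} (hm : 2 ≤ m) {S W : Finset V} (hSW : S ⊆ W) (hS : S.card = m)
    (x : Fin (2 * m + 2) → V) (hx : Function.Injective x) (ρ : Fin (2 * m + 2)) (hρ : x ρ ∉ W)
    (ha : ∃ a, Far ρ a ∧ x a ∈ S) :
    m * ((Zset W x ρ).card + 1) + 1 ≤ (New S W x ρ).card := by
  obtain ⟨a, ha1, ha2⟩ := ha
  rcases (Zset W x ρ).eq_empty_or_nonempty with hZ | hZ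
  · rw [hZ, card_empty]
    have h1 : ((univ.filter fun j => Far ρ j).image fun j => s(x ρ, x j)) ⊆ New S W x ρ := by
      intro e he
      rw [mem_image] at he
      obtain ⟨j, hj, rfl⟩ := he
      rw [mem_filter] at hj
      apply mem_union_right
      rw [mem_image]
      rcases hj.2 with h | h
      · refine ⟨(ρ, j), ?_, rfl⟩
        rw [mem_filter]
        exact ⟨mem_univ _, h, fun h' => hρ h'.1⟩
      · refine ⟨(j, ρ), ?_, Sym2.eq_swap⟩
        rw [mem_filter]
        exact ⟨mem_univ _, h, fun h' => hρ h'.2⟩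
    have h2 := card_le_card h1
    rw [card_image_of_injective] at h2
    · have := card_far (m := m) ρ
      omega
    · intro i j hij
      exact hx (Sym2.congr_right.mp hij)
  · have hZ1 : 1 ≤ (Zset W x ρ).card := card_pos.mpr hZ
    have haρ : a ≠ ρ := by
      rintro rfl
      rcases ha1 with h | h <;> omega
    have hZ2 : (Zset W x ρ).card ≤ 2 * m := by
      have : Zset W x ρ ⊆ ((univ : Finset (Fin (2 * m + 2))).erase ρ).erase a := by
        intro i hi
        rw [Zset, mem_filter] at hi
        rw [mem_erase, mem_erase]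
        refine ⟨?_, hi.2.1, mem_univ _⟩
        rintro rfl
        exact hi.2.2 (hSW ha2)
      have h := card_le_card this
      rw [card_erase_of_mem, card_erase_of_mem (mem_univ _), card_univ, Fintype.card_fin] at h
      · omega
      · rw [mem_erase]; exact ⟨haρ, mem_univ _⟩
    have hF := card_farMeet hm _ hZ1 hZ2
    have h1 : (S.image (fun s => s(x ρ, s))) ∪
        ((farMeet (Zset W x ρ)).image (fun p => s(x p.1, x p.2))) ⊆ New S W x ρ := by
      apply union_subset
      · exact subset_union_left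
      · refine Subset.trans ?_ subset_union_right
        apply image_subset_image
        intro p hp
        rw [farMeet, mem_filter] at hp
        rw [mem_filter]
        refine ⟨mem_univ _, hp.2.1, ?_⟩
        rintro ⟨hp1, hp2⟩
        rcases hp.2.2 with h | h
        · rw [Zset, mem_filter] at h
          exact h.2.2 hp1
        · rw [Zset, mem_filter] at h
          exact h.2.2 hp2
    have h2 : Disjoint (S.image (fun s => s(x ρ, s)))
        ((farMeet (Zset W x ρ)).image (fun p => s(x p.1, x p.2))) := by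
      rw [Finset.disjoint_left]
      intro e he he'
      rw [mem_image] at he he'
      obtain ⟨s, hs, rfl⟩ := he
      obtain ⟨p, hp, hps⟩ := he'
      rw [farMeet, mem_filter] at hp
      rcases hp.2.2 with h | h
      · rw [Zset, mem_filter] at h
        have : x p.1 ∈ s(x ρ, s) := by rw [← hps]; exact Sym2.mem_mk_left _ _
        rw [Sym2.mem_iff] at this
        rcases this with h' | h'
        · exact h.2.1 (hx h')
        · exact h.2.2 (by rw [h']; exact hSW hs)
      · rw [Zset, mem_filter] at h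
        have : x p.2 ∈ s(x ρ, s) := by rw [← hps]; exact Sym2.mem_mk_right _ _
        rw [Sym2.mem_iff] at this
        rcases this with h' | h'
        · exact h.2.1 (hx h')
        · exact h.2.2 (by rw [h']; exact hSW hs)
    have h3 := card_le_card h1
    rw [card_union_of_disjoint h2] at h3
    have h4 : (S.image (fun s => s(x ρ, s))).card = m := by
      rw [card_image_of_injective, hS]
      intro i j hij
      exact Sym2.congr_right.mp hij
    have h5 : ((farMeet (Zset W x ρ)).image (fun p => s(x p.1, x p.2))).card =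
        (farMeet (Zset W x ρ)).card := by
      apply card_image_of_injOn
      intro p hp p' hp' h
      rw [mem_coe, farMeet, mem_filter] at hp hp'
      simp only [Sym2.eq_iff] at h
      rcases h with ⟨h1, h2⟩ | ⟨h1, h2⟩
      · exact Prod.ext (hx h1) (hx h2)
      · exfalso
        have e1 := hx h1
        have e2 := hx h2
        have := hp.2.1
        have := hp'.2.1
        rw [e1, e2] at *
        omega
    rw [h4, h5] at h3
    rw [mul_add, mul_one]
    omega

open scoped Classical in
/-- The steps which start at `W`. -/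
noncomputable def steps [Fintype V] (S W : Finset V) (k : ℕ) : Finset ((Fin k → V) × Fin k) :=
  univ.filter fun p => Function.Injective p.1 ∧ p.1 p.2 ∉ W ∧ ∃ a, Far p.2 a ∧ p.1 a ∈ S

theorem step_sum [Fintype V] {m q ℓ w : ℕ} (hm : 2 ≤ m) (hq : 1 ≤ q) (hℓ : 1 ≤ ℓ) (hw : 1 ≤ w)
    (hV : Fintype.card V = q ^ m * ℓ) {S W : Finset V} (hSW : S ⊆ W) (hS : S.card = m)
    (hW : W.card ≤ w) :
    ∑ p ∈ steps S W (2 * m + 2), (1 / (q : ℝ)) ^ (New S W p.1 p.2).card ≤
      ((2 * m + 2 : ℕ) : ℝ) * 2 ^ (2 * m + 2) * (ℓ : ℝ) ^ (2 * m + 3) * (w : ℝ) ^ (2 * m + 2) / q := by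
  classical
  have hq' : (0 : ℝ) < q := by exact_mod_cast hq
  have hq1 : (1 : ℝ) / q ≤ 1 := by
    rw [div_le_one hq']; exact_mod_cast hq
  have hq0 : (0 : ℝ) < 1 / (q : ℝ) := by positivity
  have hℓ' : (1 : ℝ) ≤ ℓ := by exact_mod_cast hℓ
  have hw' : (1 : ℝ) ≤ w := by exact_mod_cast hw
  set k := 2 * m + 2 with hk
  -- bound of one fibre
  have hfib : ∀ ρ : Fin k, ∀ Z : Finset (Fin k),
      ∑ x ∈ (univ.filter fun x : Fin k → V => (x, ρ) ∈ steps S W k ∧ Zset W x ρ = Z),
        (1 / (q : ℝ)) ^ (New S W x ρ).card ≤ (ℓ : ℝ) ^ (k + 1) * (w : ℝ) ^ k / q := by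
    intro ρ Z
    have h1 : ∀ x ∈ (univ.filter fun x : Fin k → V => (x, ρ) ∈ steps S W k ∧ Zset W x ρ = Z),
        (1 / (q : ℝ)) ^ (New S W x ρ).card ≤ (1 / (q : ℝ)) ^ (m * (Z.card + 1) + 1) := by
      intro x hx
      rw [mem_filter, steps, mem_filter] at hx
      obtain ⟨_, ⟨_, hx1, hx2, hx3⟩, hx4⟩ := hx
      apply pow_le_pow_of_le_one hq0.le hq1
      rw [← hx4]
      exact card_new hm hSW hS x hx1 ρ hx2 hx3
    refine (sum_le_sum h1).trans ?_
    rw [sum_const, nsmul_eq_mul]
    have h2 : (univ.filter fun x : Fin k → V => (x, ρ) ∈ steps S W k ∧ Zset W x ρ = Z).card ≤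
        (q ^ m * ℓ) ^ (Z.card + 1) * w ^ k := by
      have h3 : (univ.filter fun x : Fin k → V => (x, ρ) ∈ steps S W k ∧ Zset W x ρ = Z) ⊆
          Fintype.piFinset fun i => if i ∈ insert ρ Z then univ else W := by
        intro x hx
        rw [mem_filter] at hx
        rw [Fintype.mem_piFinset]
        intro i
        by_cases hi : i ∈ insert ρ Z
        · rw [if_pos hi]; exact mem_univ _
        · rw [if_neg hi]
          by_contra hxi
          apply hi
          by_cases hiρ : i = ρ
          · rw [hiρ]; exact mem_insert_self _ _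
          · apply mem_insert_of_mem
            rw [← hx.2.2, Zset, mem_filter]
            exact ⟨mem_univ _, hiρ, hxi⟩
      refine (card_le_card h3).trans ?_
      rw [Fintype.card_piFinset]
      have h4 : ∀ i : Fin k, (if i ∈ insert ρ Z then (univ : Finset V) else W).card ≤
          (if i ∈ insert ρ Z then q ^ m * ℓ else 1) * w := by
        intro i
        by_cases hi : i ∈ insert ρ Z
        · rw [if_pos hi, if_pos hi, card_univ, hV]
          exact Nat.le_mul_of_pos_right _ hw
        · rw [if_neg hi, if_neg hi, one_mul]; exact hW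
      refine (prod_le_prod' fun i _ => h4 i).trans ?_
      rw [prod_mul_distrib, prod_const, card_univ, Fintype.card_fin]
      apply Nat.mul_le_mul_right
      rw [prod_ite, prod_const, prod_const_one, mul_one]
      apply Nat.pow_le_pow_right
      · exact Nat.mul_pos (Nat.pow_pos hq) hℓ
      · have : (univ.filter fun i => i ∈ insert ρ Z) = insert ρ Z := by ext; simp
        rw [this]
        exact card_insert_le _ _
    have h5 : ((univ.filter fun x : Fin k → V => (x, ρ) ∈ steps S W k ∧ Zset W x ρ = Z).card : ℝ) ≤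
        ((q : ℝ) ^ m * ℓ) ^ (Z.card + 1) * (w : ℝ) ^ k := by exact_mod_cast h2
    calc _ ≤ (((q : ℝ) ^ m * ℓ) ^ (Z.card + 1) * (w : ℝ) ^ k) *
          (1 / (q : ℝ)) ^ (m * (Z.card + 1) + 1) := by
          apply mul_le_mul_of_nonneg_right h5; positivity
      _ = (ℓ : ℝ) ^ (Z.card + 1) * (w : ℝ) ^ k / q := by
          rw [mul_pow, ← pow_mul, one_div, inv_pow, pow_succ (q : ℝ)]
          field_simp
      _ ≤ _ := by
          gcongr
          have := card_le_univ Z
          rw [Fintype.card_fin] at this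
          exact this
  have h6 : ∑ p ∈ steps S W k, (1 / (q : ℝ)) ^ (New S W p.1 p.2).card =
      ∑ ρ : Fin k, ∑ Z : Finset (Fin k),
        ∑ x ∈ (univ.filter fun x : Fin k → V => (x, ρ) ∈ steps S W k ∧ Zset W x ρ = Z),
        (1 / (q : ℝ)) ^ (New S W x ρ).card := by
    have h7 : ∀ ρ : Fin k, ∑ Z : Finset (Fin k),
        ∑ x ∈ (univ.filter fun x : Fin k → V => (x, ρ) ∈ steps S W k ∧ Zset W x ρ = Z),
        (1 / (q : ℝ)) ^ (New S W x ρ).card =
        ∑ x ∈ (univ.filter fun x : Fin k → V => (x, ρ) ∈ steps S W k),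
        (1 / (q : ℝ)) ^ (New S W x ρ).card := by
      intro ρ
      rw [← sum_fiberwise_of_maps_to (g := fun x => Zset W x ρ) (t := univ) (fun _ _ => mem_univ _)]
      apply sum_congr rfl
      intro Z _
      rw [filter_filter]
    rw [sum_congr rfl fun ρ _ => h7 ρ]
    rw [← sum_fiberwise_of_maps_to (s := steps S W k) (g := fun p => p.2) (t := univ)
      (fun _ _ => mem_univ _)]
    apply sum_congr rfl
    intro ρ _
    refine sum_bij (fun p _ => p.1) ?_ ?_ ?_ ?_
    · rintro ⟨x, ρ'⟩ hp
      simp only [mem_filter] at hp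
      obtain ⟨hp1, rfl⟩ := hp
      simp only [mem_filter, mem_univ, true_and]
      exact hp1
    · rintro ⟨x, ρ1⟩ hp ⟨y, ρ2⟩ hp' h
      simp only [mem_filter] at hp hp' h
      rw [hp.2, hp'.2, h]
    · intro x hx
      simp only [mem_filter, mem_univ, true_and] at hx
      exact ⟨(x, ρ), by simp [hx], rfl⟩
    · rintro ⟨x, ρ'⟩ hp
      simp only [mem_filter] at hp
      obtain ⟨hp1, rfl⟩ := hp
      rfl
  rw [h6]
  refine (sum_le_sum fun ρ _ => sum_le_sum fun Z _ => hfib ρ Z).trans ?_
  rw [sum_const, sum_const, card_univ, card_univ, Fintype.card_fin, Fintype.card_finset,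
    Fintype.card_fin, nsmul_eq_mul, nsmul_eq_mul]
  apply le_of_eq
  push_cast
  ring

end Pool.Agent.Q108.Cop
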